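import Mathlib

set_option autoImplicit false

open MeasureTheory Filter Topology Set

namespace Pool.Agent.H.MP_73c876_an

/-- the 6-adic integers -/
def Z6 : AddSubgroup (∀ k : ℕ, ZMod (6 ^ k)) := (AddSubgroup.zmultiples 1).topologicalClosure

abbrev G : Type := Z6

instance : CompactSpace G :=
  isCompact_iff_compactSpace.1 (AddSubgroup.isClosed_topologicalClosure _).isCompact

instance : MeasurableSpace G := borel G
instance : BorelSpace G := ⟨rfl⟩

def o (n : ℕ) : G := ⟨n, AddSubgroup.le_topologicalClosure _ ⟨n, by simp⟩⟩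

def r (k : ℕ) (x : G) : ℕ := (x.1 k).val

theorem o_add (m n : ℕ) : o (m + n) = o m + o n := Subtype.ext (Nat.cast_add _ _)

theorem o_zero : o 0 = 0 := Subtype.ext Nat.cast_zero

theorem r_lt (k : ℕ) (x : G) : r k x < 6 ^ k := ZMod.val_lt _

theorem r_add (k : ℕ) (x : G) (n : ℕ) : r k (x + o n) = (r k x + n) % 6 ^ k := by
  change (x.1 k + (n : ZMod (6 ^ k))).val = _
  rw [ZMod.val_add, ZMod.val_natCast, Nat.add_mod_mod]
  rfl

theorem r_mod {j k : ℕ} (h : j ≤ k) (x : G) : r k x % 6 ^ j = r j x := by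
  have : Z6 ≤ AddMonoidHom.eqLocus
      ((ZMod.castHom (pow_dvd_pow 6 h) (ZMod (6 ^ j))).toAddMonoidHom.comp
        (Pi.evalAddMonoidHom (fun k : ℕ => ZMod (6 ^ k)) k))
      (Pi.evalAddMonoidHom (fun k : ℕ => ZMod (6 ^ k)) j) :=
    AddSubgroup.topologicalClosure_minimal _ (AddSubgroup.zmultiples_le.2 (map_one
      (ZMod.castHom (pow_dvd_pow 6 h) (ZMod (6 ^ j)))))
      (isClosed_eq ((continuous_of_discreteTopology (f := ZMod.castHom (pow_dvd_pow 6 h)
        (ZMod (6 ^ j)))).comp (continuous_apply k)) (continuous_apply j))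
  have e : ZMod.castHom (pow_dvd_pow 6 h) (ZMod (6 ^ j)) (x.1 k) = x.1 j := this x.2
  rw [r, r, ← e, ZMod.castHom_apply, ZMod.cast_eq_val, ZMod.val_natCast]

theorem r_cont (k : ℕ) : Continuous (r k) :=
  continuous_of_discreteTopology.comp ((continuous_apply k).comp continuous_subtype_val)

theorem r_meas (k : ℕ) : Measurable (r k) := (r_cont k).measurable

theorem r_dvd {k n : ℕ} (h : 6 ^ k ∣ n) (x : G) : r k (x + o n) = r k x := by
  obtain ⟨c, rfl⟩ := h
  rw [r_add, Nat.add_mul_mod_self_left, Nat.mod_eq_of_lt (r_lt k x)]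

theorem small {V : Set G} (hV : V ∈ 𝓝 (0 : G)) : ∃ k, ∀ n, 6 ^ k ∣ n → o n ∈ V := by
  obtain ⟨k, hk⟩ := exists_subset_nhds_of_compactSpace (V := fun k => r k ⁻¹' {0})
    (Antitone.directed_ge fun j k h x (hx : r k x = 0) => by
      change r j x = 0
      rw [← r_mod h, hx, Nat.zero_mod])
    (fun k => (isClosed_discrete _).preimage (r_cont k)) (U := V) fun x hx => by
      have : x = 0 := Subtype.ext (funext fun k => (ZMod.val_eq_zero _).1 (mem_iInter.1 hx k))
      rwa [this]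
  refine ⟨k, fun n hn => hk ?_⟩
  change r k (o n) = 0
  rw [← zero_add (o n), r_dvd hn]
  exact ZMod.val_zero

theorem dense : DenseRange (· • o 1 : ℤ → G) := by
  intro x
  rw [closure_subtype]
  refine closure_mono ?_ x.2
  rintro _ ⟨n, rfl⟩
  exact ⟨n • o 1, ⟨n, rfl⟩, by simp [o]⟩

/-- no carry beyond level `k` -/
theorem nc {k j n : ℕ} {x : G} (h : r k x + n < 6 ^ k) (hj : k ≤ j) :
    r j x + n < 6 ^ j ∧ r j (x + o n) = r j x + n := by
  have e := Nat.div_add_mod (r j x) (6 ^ k)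
  rw [r_mod hj] at e
  obtain ⟨c, rfl⟩ := Nat.exists_eq_add_of_le hj
  have l : r (k + c) x / 6 ^ k < 6 ^ c := Nat.div_lt_of_lt_mul (pow_add 6 k c ▸ r_lt _ x)
  have : r (k + c) x + n < 6 ^ (k + c) := by
    rw [pow_add]
    nlinarith [Nat.mul_le_mul_left (6 ^ k) (Nat.succ_le_of_lt l)]
  exact ⟨this, by rw [r_add, Nat.mod_eq_of_lt this]⟩

theorem nc_div {k i j n : ℕ} {x : G} (h : r k x + n < 6 ^ k) (hi : k ≤ i) (hj : i ≤ j) :
    r j (x + o n) / 6 ^ i = r j x / 6 ^ i := by
  rw [(nc h (hi.trans hj)).2]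
  have e := Nat.div_add_mod (r j x) (6 ^ i)
  rw [r_mod hj] at e
  nth_rw 1 [← e]
  rw [add_assoc, Nat.mul_add_div (by positivity), Nat.div_eq_of_lt (nc h hi).1, add_zero]

/-- base 6 digit -/
def e (k : ℕ) (x : G) : ZMod 6 := (r (k + 1) x / 6 ^ k : ℕ)

theorem e_add (k t : ℕ) (x : G) : e k (x + o (t * 6 ^ k)) = e k x + t := by
  rw [e, e, r_add, pow_succ, Nat.mod_mul_right_div_self, ZMod.natCast_mod,
    Nat.add_mul_div_right _ _ (by positivity), Nat.cast_add]

def p : ℕ → ℕ
  | 0 => 0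
  | K + 1 => p K + 6 ^ p K

theorem p_mono : StrictMono p := strictMono_nat_of_lt_succ fun K => by simp [p]

/-- block digit -/
def d (K : ℕ) (x : G) : ℕ := r (p (K + 1)) x / 6 ^ p K

theorem d_lt (K : ℕ) (x : G) : p (K + 1) + d K x < p (K + 2) :=
  Nat.add_lt_add_left ((Nat.div_le_self _ _).trans_lt (r_lt _ _)) _

def w (K : ℕ) : ZMod 6 := if Even K then 3 else 2

def h (K : ℕ) (x : G) : ZMod 6 := w K * e (p (K + 1) + d K x) x

theorem h_congr {K : ℕ} {x y : G} (hr : r (p (K + 2)) x = r (p (K + 2)) y) : h K x = h K y := by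
  have : ∀ j ≤ p (K + 2), r j x = r j y := fun j hj => by rw [← r_mod hj, hr, r_mod hj]
  have e1 : d K x = d K y := by rw [d, d, this _ (p_mono.monotone (Nat.le_succ _))]
  rw [h, h, e, e, this _ (d_lt K x), e1]

theorem h_cont (K : ℕ) : Continuous (h K) := by
  refine (IsLocallyConstant.continuous ((IsLocallyConstant.iff_eventually_eq _).2 fun x => ?_))
  filter_upwards [((r_cont (p (K + 2))).tendsto x).eventually
    ((nhds_discrete ℕ).symm ▸ eventually_pure.2 rfl :
      ∀ᶠ m in 𝓝 (r (p (K + 2)) x), m = r (p (K + 2)) x)] with y hy using h_congr hy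

theorem h_nc {M K n : ℕ} {x : G} (hx : r (p M) x + n < 6 ^ p M) (hK : M ≤ K) :
    h K (x + o n) = h K x := by
  have l := p_mono.monotone hK
  have l' := p_mono.monotone (Nat.le_add_right K 1)
  have e1 : d K (x + o n) = d K x := nc_div hx l l'
  rw [h, h, e1, e, e, nc_div hx (by omega) (Nat.le_succ _)]

/-- truncated cocycle sums -/
def S (M n : ℕ) (x : G) : ZMod 6 := ∑ i ∈ Finset.range M, (h i (x + o n) - h i x)

theorem S_nc {M K n : ℕ} {x : G} (hx : r (p M) x + n < 6 ^ p M) (hK : M ≤ K) :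
    S K n x = S M n x := by
  induction K, hK using Nat.le_induction with
  | base => rfl
  | succ K hK ih => rw [S, Finset.sum_range_succ, h_nc hx hK, sub_self, add_zero, ← S, ih]

theorem exists_φ : ∃ φ : G → ZMod 6, Measurable φ ∧
    ∀ M x, r (p M) x + 1 < 6 ^ p M → φ x = S M 1 x := by
  classical
  have ex : ∀ x, ∃ M, r (p M) x + 1 < 6 ^ p M ∨ ∀ M, ¬r (p M) x + 1 < 6 ^ p M := fun x => by
    by_cases hx : ∃ M, r (p M) x + 1 < 6 ^ p M
    · exact hx.imp fun M => Or.inl
    · exact ⟨0, Or.inr (not_exists.1 hx)⟩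
  have m : ∀ M, MeasurableSet {x | r (p M) x + 1 < 6 ^ p M} := fun M =>
    measurableSet_lt ((r_meas _).add_const 1) measurable_const
  refine ⟨fun x => S (Nat.find (ex x)) 1 x, Measurable.find (f := fun M => S M 1) (fun M => ?_)
    (fun M => ?_) ex, fun M x hx => ?_⟩
  · refine Continuous.measurable (continuous_finsetSum _ fun i _ => ?_)
    exact ((h_cont i).comp (continuous_add_const _)).sub (h_cont i)
  · rw [ofPred_or, ofPred_forall]
    exact (m M).union (MeasurableSet.iInter fun M => (m M).compl)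
  · exact (S_nc ((Nat.find_spec (ex x)).resolve_right fun h => h M hx)
      (Nat.find_min' (ex x) (Or.inl hx))).symm

end Pool.Agent.H.MP_73c876_an
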