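import Pool.Agent.H.MP_73c876_an.A

set_option autoImplicit false

open MeasureTheory Filter Topology Set

namespace Pool.Agent.H.MP_73c876_an

instance : SecondCountableTopology G := TopologicalSpace.Subtype.secondCountableTopology _

noncomputable def φ : G → ZMod 6 := exists_φ.choose

noncomputable def Φ (n : ℕ) (x : G) : ZMod 6 := ∑ k ∈ Finset.range n, φ (x + o k)

theorem Φ_meas (n : ℕ) : Measurable (Φ n) :=
  Finset.measurable_fun_sum _ fun _ _ => exists_φ.choose_spec.1.comp (measurable_add_const _)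

theorem Φ_eq {M n : ℕ} {x : G} (hx : r (p M) x + n < 6 ^ p M) : Φ n x = S M n x := by
  induction n with
  | zero => simp [Φ, S, o_zero]
  | succ n ih =>
    have h1 : r (p M) x + n < 6 ^ p M := by omega
    rw [Φ, Finset.sum_range_succ, ← Φ, ih h1, φ, exists_φ.choose_spec.2 M _
      (by rw [(nc h1 le_rfl).2]; omega), S, S, S, ← Finset.sum_add_distrib]
    refine Finset.sum_congr rfl fun i _ => ?_
    rw [o_add, add_assoc]
    abel

noncomputable def T (z : G × ZMod 6) : G × ZMod 6 := (z.1 + o 1, z.2 + φ z.1)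

theorem T_iter (n : ℕ) (z : G × ZMod 6) : T^[n] z = (z.1 + o n, z.2 + Φ n z.1) := by
  induction n with
  | zero => simp [Φ, o_zero]
  | succ n ih =>
    rw [Function.iterate_succ_apply', ih, T, Φ, Φ, Finset.sum_range_succ, o_add, add_assoc,
      add_assoc]

def s (K n t m : ℕ) : ℕ := t * 6 ^ (p (K + 1) + (m + n) / 6 ^ p K)

theorem s_dvd (K n t m : ℕ) {j : ℕ} (hj : j ≤ p (K + 1) + (m + n) / 6 ^ p K) :
    6 ^ j ∣ s K n t m := (pow_dvd_pow 6 hj).mul_left t

/-- the piecewise translation -/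
def Θ (K n t : ℕ) (x : G) : G := x + o (s K n t (r (p (K + 1)) x))

theorem K1 {K n : ℕ} (t : ℕ) {x : G} (hx : r (p (K + 1)) x + n < 6 ^ p (K + 1))
    (hx' : 6 ^ p K ≤ r (p K) x + n) : Φ n (Θ K n t x) = Φ n x + w K * t := by
  have e0 : ∀ j ≤ p (K + 1) + (r (p (K + 1)) x + n) / 6 ^ p K, ∀ y,
      r j (y + o (s K n t (r (p (K + 1)) x))) = r j y := fun j hj y => r_dvd (s_dvd _ _ _ _ hj) y
  have e1 : ∀ i < K, ∀ y, h i (y + o (s K n t (r (p (K + 1)) x))) = h i y := fun i hi y =>
    h_congr (e0 _ ((p_mono.monotone (by omega)).trans (Nat.le_add_right _ _)) y)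
  have e2 : ∀ y, d K (y + o (s K n t (r (p (K + 1)) x))) = d K y := fun y => by
    rw [d, d, e0 _ (Nat.le_add_right _ _)]
  have e3 : d K (x + o n) = (r (p (K + 1)) x + n) / 6 ^ p K := by rw [d, (nc hx le_rfl).2]
  have e4 : d K x < (r (p (K + 1)) x + n) / 6 ^ p K := by
    have e := Nat.div_add_mod (r (p (K + 1)) x) (6 ^ p K)
    rw [r_mod (p_mono.monotone (Nat.le_succ K))] at e
    rw [Nat.lt_iff_add_one_le, Nat.le_div_iff_mul_le (by positivity), d]
    nlinarith
  rw [Φ_eq hx, Φ_eq (M := K + 1) (by rwa [Θ, e0 _ (Nat.le_add_right _ _)]), S, S,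
    Finset.sum_range_succ, Finset.sum_range_succ, Θ, add_right_comm x, add_assoc _ _ (w K * t)]
  congr 1
  · exact Finset.sum_congr rfl fun i hi => by
      rw [e1 i (Finset.mem_range.1 hi), e1 i (Finset.mem_range.1 hi)]
  rw [h, h, h, h, e2, e2, e3, e, e, e0 (p (K + 1) + d K x + 1) (by omega), ← e, ← e, s, e_add]
  ring

theorem K2 {M A : ℕ} {x : G} (hA : A ≤ 6 ^ p (M + 1)) (h1 : A * 6 ^ p M ≤ r (p (M + 1)) x)
    (h2 : r (p (M + 1) + A) x + 6 ^ p (M + 1) < 6 ^ (p (M + 1) + A)) :
    r (p (M + 2)) x + 6 ^ p (M + 1) < 6 ^ p (M + 2) ∧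
      ∃ u, Φ (6 ^ p (M + 1)) x = w (M + 1) * u := by
  have h3 := (nc h2 (j := p (M + 2)) (Nat.add_le_add_left hA _)).1
  refine ⟨h3, ?_⟩
  have e1 : d M (x + o (6 ^ p (M + 1))) = d M x := by rw [d, d, r_dvd dvd_rfl]
  have e2 : A ≤ d M x := (Nat.le_div_iff_mul_le (by positivity)).2 h1
  rw [Φ_eq h3, S, Finset.sum_range_succ, Finset.sum_range_succ, Finset.sum_eq_zero fun i hi => by
    rw [h_congr (r_dvd (pow_dvd_pow 6 (p_mono.monotone (by
      have := Finset.mem_range.1 hi; omega))) x), sub_self], h, h, e1, e, e,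
    nc_div h2 (by omega) (Nat.le_succ _), sub_self, zero_add, zero_add, h, h, ← mul_sub]
  exact ⟨_, rfl⟩

noncomputable def μ : Measure G := Measure.addHaarMeasure ⊤

instance : IsProbabilityMeasure μ := ⟨Measure.addHaarMeasure_self⟩
instance : μ.IsAddHaarMeasure := inferInstanceAs (Measure.addHaarMeasure ⊤).IsAddHaarMeasure

theorem pw (k : ℕ) {s : ℕ → ℕ} (hs : ∀ m, 6 ^ k ∣ s m) :
    MeasurePreserving (fun x => x + o (s (r k x))) μ μ := by
  have m : Measurable fun x => x + o (s (r k x)) :=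
    measurable_id.add ((measurable_of_countable fun m => o (s m)).comp (r_meas k))
  refine ⟨m, Measure.ext fun A hA => ?_⟩
  have e : ∀ B, MeasurableSet B → μ B = ∑' m : (univ : Set ℕ), μ (r k ⁻¹' {m.1} ∩ B) :=
    fun B hB => by
      have := tsum_measure_preimage_singleton (μ := μ.restrict B) countable_univ
        (f := r k) fun y _ => r_meas k (measurableSet_singleton y)
      simp only [Measure.restrict_apply' hB, preimage_univ, univ_inter] at this
      exact this.symm
  rw [Measure.map_apply m hA, e _ (m hA), e _ hA]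
  refine tsum_congr fun m => ?_
  rw [← measure_preimage_add_right μ (o (s m)) (_ ∩ A)]
  congr 1
  ext x
  simp only [mem_inter_iff, mem_preimage, mem_singleton_iff, r_dvd (hs _), and_congr_right_iff]
  rintro h
  rw [h]

theorem Θ_mp (K n t : ℕ) : MeasurePreserving (Θ K n t) μ μ :=
  pw (p (K + 1)) fun m => s_dvd K n t m (Nat.le_add_right _ _)

theorem cls (k m : ℕ) : μ.real (r k ⁻¹' {m}) ≤ 1 / 6 ^ k := by
  have := measureReal_biUnion_finset (μ := μ) (s := Finset.range (6 ^ k))
    (f := fun j => (· + o j) ⁻¹' (r k ⁻¹' {m})) (fun i hi j hj hij => by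
      refine Set.disjoint_left.2 fun x h1 h2 => hij ?_
      simp only [mem_preimage, mem_singleton_iff, r_add] at h1 h2
      exact (Nat.ModEq.add_left_cancel' _ (h1.trans h2.symm)).eq_of_lt_of_lt
        (Finset.mem_range.1 hi) (Finset.mem_range.1 hj))
    fun j _ => measurable_add_const _ (r_meas k (measurableSet_singleton m))
  simp only [Measure.real, measure_preimage_add_right, Finset.sum_const, Finset.card_range,
    nsmul_eq_mul] at this
  rw [le_div_iff₀' (by positivity)]
  push_cast at this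
  rw [Measure.real, ← this]
  exact measureReal_le_one

theorem lo (k n : ℕ) : μ.real {x | r k x < n} ≤ n / 6 ^ k := by
  have : {x | r k x < n} = ⋃ m ∈ Finset.range n, r k ⁻¹' {m} := by
    ext x
    simp
  rw [this]
  refine (measureReal_biUnion_finset_le _ _).trans ((Finset.sum_le_sum fun m _ => cls k m).trans ?_)
  simp [div_eq_mul_inv]

theorem hi (k n : ℕ) : μ.real {x | 6 ^ k ≤ r k x + n} ≤ n / 6 ^ k := by
  refine le_trans ?_ (lo k n)
  rw [Measure.real, Measure.real, ← measure_preimage_add_right μ (o n) {x | r k x < n}]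
  refine measureReal_mono fun x (hx : 6 ^ k ≤ r k x + n) => ?_
  change r k (x + o n) < n
  have := r_lt k x
  rw [r_add, Nat.mod_eq_sub_mod hx]
  exact (Nat.mod_le _ _).trans_lt (by omega)

theorem erg : Ergodic (fun x => x + o 1) μ := by
  simpa only [add_comm (o 1)] using ergodic_add_left_of_denseRange_zsmul dense μ

end Pool.Agent.H.MP_73c876_an
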