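import Pool.Agent.H.MP_73c876_an.B

set_option autoImplicit false

open MeasureTheory Filter Topology Set
open scoped ENNReal Pointwise

namespace Pool.Agent.H.MP_73c876_an

noncomputable def η : Measure (ZMod 6) := (6 : ℝ≥0∞)⁻¹ • Measure.count

instance : IsProbabilityMeasure η := ⟨by simp [η, ENNReal.inv_mul_cancel]⟩
instance : η.IsAddRightInvariant := by unfold η; infer_instance

noncomputable def ν : Measure (G × ZMod 6) := μ.prod η

instance : IsProbabilityMeasure ν := by unfold ν; infer_instance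

theorem skew {f : G → G} (hf : MeasurePreserving f μ μ) {ψ : G → ZMod 6} (hψ : Measurable ψ) :
    MeasurePreserving (fun z : G × ZMod 6 => (f z.1, z.2 + ψ z.1)) ν ν :=
  hf.skew_product (g := fun x y => y + ψ x) (measurable_snd.add (hψ.comp measurable_fst))
    (ae_of_all _ fun x => map_add_right_eq_self η (ψ x))

theorem T_mp : MeasurePreserving T ν ν :=
  skew (measurePreserving_add_right μ (o 1)) exists_φ.choose_spec.1

/-- fibre rotation -/
def R (u : ZMod 6) (z : G × ZMod 6) : G × ZMod 6 := (z.1, z.2 + u)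

theorem R_mp (u : ZMod 6) : MeasurePreserving (R u) ν ν :=
  skew (MeasurePreserving.id μ) measurable_const

theorem lift {f : G → G} (hf : MeasurePreserving f μ μ) :
    MeasurePreserving (fun z : G × ZMod 6 => (f z.1, z.2)) ν ν := by
  simpa using skew hf (ψ := 0) measurable_const

theorem appr {A : Set (G × ZMod 6)} (hA : MeasurableSet A) {ε : ℝ} (hε : 0 < ε) : ∃ k,
    ∀ f : G → G, MeasurePreserving f μ μ → (∀ x, ∃ n, 6 ^ k ∣ n ∧ f x = x + o n) →
      ν.real (A \ (fun z : G × ZMod 6 => (f z.1, z.2)) ⁻¹' A) ≤ 2 * ε := by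
  have e0 : ENNReal.ofReal ε ≠ 0 := by simpa using hε
  obtain ⟨F, hF, cF, mF⟩ := hA.exists_isClosed_sdiff_lt (measure_ne_top ν A) e0
  obtain ⟨U, hU, oU, -, mU⟩ := hA.exists_isOpen_sdiff_lt (measure_ne_top ν A) e0
  obtain ⟨V, hV, hFV⟩ := compact_open_separated_add_right cF.isCompact oU (hF.trans hU)
  obtain ⟨k, hk⟩ := small ((Continuous.prodMk_left (0 : ZMod 6)).continuousAt (x := (0 : G)) hV)
  refine ⟨k, fun f hf h => ?_⟩
  calc _ ≤ ν.real (A \ F ∪ (fun z : G × ZMod 6 => (f z.1, z.2)) ⁻¹' (U \ A)) := by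
        refine measureReal_mono fun z hz => ?_
        by_cases hz' : z ∈ F
        · obtain ⟨n, h1, h2⟩ := h z.1
          exact Or.inr ⟨hFV ⟨z, hz', _, hk n h1, by ext <;> simp [h2]⟩, hz.2⟩
        · exact Or.inl ⟨hz.1, hz'⟩
    _ ≤ _ := measureReal_union_le _ _
    _ ≤ _ := by
        rw [(lift hf).measureReal_preimage (oU.measurableSet.diff hA).nullMeasurableSet]
        linarith [ENNReal.toReal_le_of_le_ofReal hε.le mF.le,
          ENNReal.toReal_le_of_le_ofReal hε.le mU.le, measureReal_def ν (A \ F),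
          measureReal_def ν (U \ A)]

theorem lb {A B : Set (G × ZMod 6)} (hA : MeasurableSet A) (hB : MeasurableSet B) (b : ℕ) {ε : ℝ}
    (hε : 0 < ε) : ∃ n ≥ 1, ∑ t, ν.real (A ∩ R (w b * t) ⁻¹' B) ≤
      6 * (ν.real (A ∩ T^[n] ⁻¹' B) + 8 * ε) := by
  obtain ⟨k, hk⟩ := appr hA hε
  obtain ⟨l, hl⟩ := appr hB hε
  obtain ⟨M, hM1, hM2, hM3⟩ : ∃ M, k + l + 1 ≤ M ∧ w (M + 1) = w b ∧ (M : ℝ) / 6 ^ M ≤ ε := by
    have := (tendsto_pow_const_div_const_pow_of_one_lt 1 (r := 6) (by norm_num)).eventually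
      (ge_mem_nhds hε)
    obtain ⟨N, hN⟩ := eventually_atTop.1 this
    refine ⟨2 * (N + k + l) + 1 + b, by omega, ?_,
      by simpa using hN (2 * (N + k + l) + 1 + b) (by omega)⟩
    simp only [w, Nat.even_iff]
    rw [show (2 * (N + k + l) + 1 + b + 1) % 2 = b % 2 by omega]
  have pM := p_mono.id_le
  have pM' : ∀ j, j ≤ 6 ^ p j := fun j => (pM j).trans (Nat.lt_pow_self (by norm_num)).le
  set n := 6 ^ p (M + 1) with hn
  refine ⟨n, Nat.one_le_pow _ _ (by norm_num), ?_⟩
  set Γ : Set (G × ZMod 6) := {z | M * 6 ^ p M ≤ r (p (M + 1)) z.1 ∧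
    r (p (M + 1) + M) z.1 + n < 6 ^ (p (M + 1) + M)}
  have mΓ : MeasurableSet Γ :=
    (measurableSet_le measurable_const ((r_meas _).comp measurable_fst)).inter
      (measurableSet_lt (((r_meas _).comp measurable_fst).add_const _) measurable_const)
  have hΓ : ν.real Γᶜ ≤ 2 * ε := by
    have e : Γᶜ = Prod.fst ⁻¹' ({x | r (p (M + 1)) x < M * 6 ^ p M} ∪
        {x | 6 ^ (p (M + 1) + M) ≤ r (p (M + 1) + M) x + n}) := by
      ext z
      simp only [Γ, mem_compl_iff, mem_ofPred_eq, not_and_or, not_le, not_lt, mem_preimage,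
        mem_union]
    rw [e, (show MeasurePreserving Prod.fst ν μ from measurePreserving_fst).measureReal_preimage
      (by exact ((measurableSet_lt (r_meas _) measurable_const).union
        (measurableSet_le measurable_const ((r_meas _).add_const _))).nullMeasurableSet)]
    refine (measureReal_union_le _ _).trans ((add_le_add (lo _ _) (hi _ _)).trans ?_)
    have h1 : (M : ℝ) / 6 ^ 6 ^ p M ≤ M / 6 ^ M := by gcongr; exacts [by norm_num, pM' M]
    have h2 : (1 : ℝ) / 6 ^ M ≤ M / 6 ^ M := by gcongr; exact_mod_cast (by omega : 1 ≤ M)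
    rw [hn, pow_add, p, pow_add]
    push_cast
    rw [mul_comm (M : ℝ), mul_div_mul_left _ _ (by positivity), ← pow_add, div_mul_cancel_left₀
      (by positivity), ← one_div]
    linarith
  have g := fun z (hz : z ∈ Γ) => K2 ((Nat.le_succ M).trans (pM' _)) hz.1 hz.2
  set Ψ : G × ZMod 6 → G × ZMod 6 := fun z => (z.1, z.2 + Φ n z.1)
  have hΨ : MeasurePreserving Ψ ν ν := skew (MeasurePreserving.id μ) (Φ_meas n)
  have ha : ν.real (A ∩ Ψ ⁻¹' B) ≤ ν.real (A ∩ T^[n] ⁻¹' B) + 2 * ε := by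
    have := hl _ (measurePreserving_add_right μ (o n)) fun x =>
      ⟨n, pow_dvd_pow 6 ((by omega : l ≤ M + 1).trans (pM _)), rfl⟩
    rw [← hΨ.measureReal_preimage
      (hB.diff ((lift (measurePreserving_add_right μ (o n))).measurable hB)).nullMeasurableSet]
      at this
    refine le_trans (measureReal_mono fun z hz => ?_)
      ((measureReal_union_le _ _).trans (add_le_add_right this _))
    by_cases hz' : z ∈ T^[n] ⁻¹' B
    · exact Or.inl ⟨hz.1, hz'⟩
    · exact Or.inr ⟨hz.2, by rwa [mem_preimage, T_iter] at hz'⟩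
  have hb : ∀ t, ν.real (Γ ∩ A ∩ Ψ ⁻¹' (R (w b * t) ⁻¹' B)) ≤ ν.real (A ∩ Ψ ⁻¹' B) + 4 * ε := by
    intro t
    have q := Θ_mp (M + 1) n t.val
    have q' : ∀ j ≤ M, ∀ x, ∃ m, 6 ^ j ∣ m ∧ Θ (M + 1) n t.val x = x + o m := fun j hj x =>
      ⟨_, s_dvd _ _ _ _ (((by omega : j ≤ M + 1 + 1).trans (pM _)).trans (Nat.le_add_right _ _)),
        rfl⟩
    have h1 := hk _ q (q' k (by omega))
    have h2 := hl _ q (q' l (by omega))
    rw [← ((R_mp (w b * t)).comp hΨ).measureReal_preimage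
      (hB.diff ((lift q).measurable hB)).nullMeasurableSet] at h2
    rw [← (lift q).measureReal_preimage (hA.inter (hΨ.measurable hB)).nullMeasurableSet]
    refine le_trans (measureReal_mono fun z hz => ?_) ((measureReal_union_le _ _).trans
      (add_le_add_right ((measureReal_union_le _ _).trans
        ((add_le_add h1 h2).trans_eq (by ring))) _))
    by_contra hc
    simp only [mem_union, not_or, Set.mem_sdiff, not_and, not_not, mem_preimage, mem_inter_iff] at hc
    refine hc.1 (hc.2.1 hz.1.2) ?_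
    have := hc.2.2 hz.2
    have e := K1 (K := M + 1) (n := n) t.val (g z hz.1.1).1 (Nat.le_add_left _ _)
    simp only [Ψ, e, hM2, ZMod.natCast_zmod_val, ← add_assoc]
    exact this
  have hc : ∑ t, ν.real (Γ ∩ A ∩ R (w b * t) ⁻¹' B) =
      ∑ t, ν.real (Γ ∩ A ∩ Ψ ⁻¹' (R (w b * t) ⁻¹' B)) := by
    have m1 := fun t => (mΓ.inter hA).inter ((R_mp (w b * t)).measurable hB)
    have m2 := fun t => (mΓ.inter hA).inter (hΨ.measurable ((R_mp (w b * t)).measurable hB))
    simp only [← integral_indicator_one (m1 _), ← integral_indicator_one (m2 _)]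
    rw [← integral_finsetSum _ fun t _ => (integrable_const 1).indicator (m1 t),
      ← integral_finsetSum _ fun t _ => (integrable_const 1).indicator (m2 t)]
    refine integral_congr_ae (ae_of_all _ fun z => ?_)
    by_cases hz : z ∈ Γ ∩ A
    · obtain ⟨u, hu⟩ := (g z hz.1).2
      rw [hM2] at hu
      beta_reduce
      rw [← Equiv.sum_comp (Equiv.addLeft u)]
      refine Finset.sum_congr rfl fun t _ => ?_
      classical
      rw [indicator_apply, indicator_apply]
      refine if_congr (and_congr_right fun _ => ?_) rfl rfl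
      rw [← hn] at hu
      simp only [mem_preimage, R, Ψ, hu, Equiv.coe_addLeft, mul_add, add_assoc]
    · exact Finset.sum_congr rfl fun t _ => by
        rw [indicator_of_notMem fun h => hz h.1, indicator_of_notMem fun h => hz h.1]
  calc _ ≤ ∑ t, (ν.real (Γ ∩ A ∩ R (w b * t) ⁻¹' B) + 2 * ε) := Finset.sum_le_sum fun t _ => by
        refine le_trans (measureReal_mono fun z hz => ?_)
          ((measureReal_union_le _ _).trans (add_le_add_right hΓ _))
        by_cases hz' : z ∈ Γ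
        · exact Or.inl ⟨⟨hz', hz.1⟩, hz.2⟩
        · exact Or.inr hz'
    _ = ∑ t, (ν.real (Γ ∩ A ∩ Ψ ⁻¹' (R (w b * t) ⁻¹' B)) + 2 * ε) := by
        rw [Finset.sum_add_distrib, hc, ← Finset.sum_add_distrib]
    _ ≤ ∑ _t : ZMod 6, (ν.real (A ∩ T^[n] ⁻¹' B) + 8 * ε) :=
        Finset.sum_le_sum fun t _ => by linarith [hb t]
    _ = _ := by simp [mul_add]

theorem noset {A : Set (G × ZMod 6)} (hA : MeasurableSet A) (h0 : 0 < ν.real A) (h1 : ν.real A < 1)
    (h : ∀ n ≥ 1, ν.real (A ∩ T^[n] ⁻¹' A) ≤ ν.real A ^ 2) : False := by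
  have key : ∀ b, ∑ t, ν.real (A ∩ R (w b * t) ⁻¹' A) ≤ 6 * ν.real A ^ 2 := fun b =>
    le_of_forall_pos_le_add fun ε hε => by
      obtain ⟨n, hn, e⟩ := lb hA hA b (ε := ε / 48) (by positivity)
      linarith [h n hn]
  have k3 := key 0
  have k2 := key 1
  have m := fun u => (R_mp u).measurable hA
  have e := fun u => (R_mp u).measureReal_preimage hA.nullMeasurableSet
  have r0 : R 0 ⁻¹' A = A := by
    ext z
    simp [R]
  have rr : ∀ u v, R u ⁻¹' (R v ⁻¹' A) = R (u + v) ⁻¹' A := fun u v => by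
    ext z
    simp [R, add_assoc]
  change ∑ t : Fin 6, _ ≤ _ at k3 k2
  rw [Fin.sum_univ_six] at k3 k2
  change ν.real (A ∩ R 0 ⁻¹' A) + ν.real (A ∩ R 3 ⁻¹' A) + ν.real (A ∩ R 0 ⁻¹' A) +
    ν.real (A ∩ R 3 ⁻¹' A) + ν.real (A ∩ R 0 ⁻¹' A) + ν.real (A ∩ R 3 ⁻¹' A) ≤ _ at k3
  change ν.real (A ∩ R 0 ⁻¹' A) + ν.real (A ∩ R 2 ⁻¹' A) + ν.real (A ∩ R 4 ⁻¹' A) +
    ν.real (A ∩ R 0 ⁻¹' A) + ν.real (A ∩ R 2 ⁻¹' A) + ν.real (A ∩ R 4 ⁻¹' A) ≤ _ at k2
  rw [r0, inter_self] at k3 k2
  have u1 := measureReal_union_add_inter (μ := ν) (s := A) (m 3)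
  have u2 := measureReal_union_add_inter (μ := ν) (s := A) (m 2)
  have u3 := measureReal_union_add_inter (μ := ν) (s := A ∪ R 2 ⁻¹' A) (m 4)
  have u4 := measureReal_union_le (μ := ν) (A ∩ R 4 ⁻¹' A) (R 2 ⁻¹' A ∩ R 4 ⁻¹' A)
  have u5 := (R_mp 2).measureReal_preimage (hA.inter (m 2)).nullMeasurableSet
  have u6 := (R_mp 2).measureReal_preimage (hA.inter (m 4)).nullMeasurableSet
  rw [preimage_inter, rr] at u5 u6
  rw [show (2 : ZMod 6) + 2 = 4 from rfl] at u5
  rw [show (2 : ZMod 6) + 4 = 0 from rfl, r0, inter_comm] at u6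
  rw [← union_inter_distrib_right] at u4
  rw [e] at u1 u2 u3
  have l1 : ν.real (A ∪ R 3 ⁻¹' A) ≤ 1 := measureReal_le_one
  have l2 : ν.real (A ∪ R 2 ⁻¹' A ∪ R 4 ⁻¹' A) ≤ 1 := measureReal_le_one
  have l3 : 0 ≤ ν.real (A ∩ R 3 ⁻¹' A) := measureReal_nonneg
  have a1 : 1 / 2 ≤ ν.real A := by nlinarith
  have a2 : ν.real A ≤ 1 / 2 := by nlinarith
  nlinarith

theorem T_erg : Ergodic T ν := by
  refine ⟨T_mp, ⟨fun A hA h => ?_⟩⟩
  have key : ∀ b t, ∀ᵐ z ∂ν, z ∈ A → R (w b * t) z ∈ A := fun b t => by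
    have : ∑ t, ν.real (A ∩ R (w b * t) ⁻¹' Aᶜ) ≤ 0 := le_of_forall_pos_le_add fun ε hε => by
      obtain ⟨n, hn, e⟩ := lb hA hA.compl b (ε := ε / 48) (by positivity)
      rw [preimage_compl, Function.IsFixedPt.preimage_iterate h n, inter_compl_self,
        measureReal_empty] at e
      linarith
    have := (Finset.single_le_sum (f := fun t => ν.real (A ∩ R (w b * t) ⁻¹' Aᶜ))
      (fun _ _ => measureReal_nonneg) (Finset.mem_univ t)).trans this
    have := (measureReal_eq_zero_iff (measure_ne_top _ _)).1 (le_antisymm this measureReal_nonneg)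
    filter_upwards [measure_eq_zero_iff_ae_notMem.1 this] with z hz h1
    by_contra h2
    exact hz ⟨h1, h2⟩
  have k2 : ∀ᵐ z ∂ν, ∀ u, z ∈ A → R u z ∈ A := ae_all_iff.2 fun u => by
    filter_upwards [key 0 u, (R_mp (w 0 * u)).quasiMeasurePreserving.ae (key 1 (-u))] with z h1 h2 hz
    convert h2 (h1 hz) using 1
    simp only [R, w]
    norm_num
    ring
  have m : MeasurableSet {x : G | ∀ y, (x, y) ∈ A} := by
    rw [ofPred_forall]
    exact MeasurableSet.iInter fun y => measurable_prodMk_right hA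
  have q : Measure.QuasiMeasurePreserving Prod.fst ν μ := Measure.quasiMeasurePreserving_fst
  have hT : ∀ z, T z ∈ A ↔ z ∈ A := fun z => Set.ext_iff.1 h z
  rw [eventuallyConst_set]
  refine (eventuallyConst_set.1 (erg.aeconst_set m (Set.ext fun x => ⟨fun hx y => ?_,
    fun hx y => ?_⟩))).imp (fun h => ?_) fun h => ?_
  · exact (hT _).1 (hx _)
  · simpa [T] using (hT _).2 (hx (y - φ x))
  · filter_upwards [q.ae h] with z hz using hz z.2
  · filter_upwards [q.ae h, k2] with z h1 h2 hz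
    exact h1 fun y => by simpa [R] using h2 (y - z.2) hz

theorem corr (c : ZMod 6 → ℝ) (hc : ∀ K u, ∑ t, c (u + w K * t) = 0) {n : ℕ} (hn : 1 ≤ n) :
    ∫ x, c (Φ n x) ∂μ = 0 := by
  set E : ℕ → Set G := fun K => {x | r (p K) x + n < 6 ^ p K}
  have mE : ∀ K, MeasurableSet (E K) := fun K =>
    measurableSet_lt ((r_meas _).add_const _) measurable_const
  have i : ∀ u, Integrable (fun x => c (Φ n x + u)) μ := fun u => Integrable.of_bound
    ((measurable_of_countable c).comp ((Φ_meas n).add_const u)).aestronglyMeasurable ‖c‖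
    (ae_of_all _ fun x => norm_le_pi_norm c _)
  have i0 : Integrable (fun x => c (Φ n x)) μ := by simpa using i 0
  have h1 : ∀ K, ∫ x in E K, c (Φ n x) ∂μ = 0 := by
    intro K
    induction K with
    | zero =>
      have : E 0 = ∅ := eq_empty_of_forall_notMem fun x (hx : _ < 1) => by omega
      simp [this]
    | succ K ih =>
      have s1 : E K ⊆ E (K + 1) := fun x hx => (nc hx (p_mono.monotone (Nat.le_succ K))).1
      have mD := (mE (K + 1)).diff (mE K)
      rw [← union_sdiff_cancel s1, setIntegral_union disjoint_sdiff_right mD i0.integrableOn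
        i0.integrableOn, ih, zero_add]
      have e : ∀ t : ZMod 6, ∫ x in E (K + 1) \ E K, c (Φ n x) ∂μ =
          ∫ x in E (K + 1) \ E K, c (Φ n x + w K * t) ∂μ := fun t => by
        have q := Θ_mp K n t.val
        have e1 : Θ K n t.val ⁻¹' (E (K + 1) \ E K) = E (K + 1) \ E K := by
          ext x
          simp only [E, Θ, mem_preimage, Set.mem_sdiff, mem_ofPred_eq]
          rw [r_dvd (s_dvd _ _ _ _ (Nat.le_add_right _ _)), r_dvd (s_dvd _ _ _ _
            ((p_mono.monotone (Nat.le_succ K)).trans (Nat.le_add_right _ _)))]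
        nth_rw 1 [← q.map_eq]
        rw [setIntegral_map mD (q.map_eq.symm ▸ i0.1) q.measurable.aemeasurable, e1]
        refine setIntegral_congr_fun mD fun x hx => ?_
        simp only [K1 t.val hx.1 (not_lt.1 hx.2), ZMod.natCast_zmod_val]
      have := Finset.sum_congr rfl fun t (_ : t ∈ Finset.univ) => e t
      rw [← integral_finsetSum _ fun t _ => (i _).integrableOn] at this
      simpa [hc] using this
  have h2 : ∀ K, ‖∫ x, c (Φ n x) ∂μ‖ ≤ ‖c‖ * (n / 6 ^ K) := fun K => by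
    rw [← integral_add_compl (mE K) i0, h1, zero_add]
    refine (norm_setIntegral_le_of_norm_le_const (measure_lt_top _ _)
      fun x _ => norm_le_pi_norm c _).trans (mul_le_mul_of_nonneg_left ?_ (norm_nonneg _))
    refine le_trans (le_of_eq ?_) ((hi (p K) n).trans ?_)
    · congr 1
      ext x
      simp [E]
    · gcongr
      exacts [by norm_num, p_mono.id_le K]
  have := ((tendsto_pow_atTop_atTop_of_one_lt (r := (6 : ℝ)) (by norm_num)).const_div_atTop
    n).const_mul ‖c‖
  simpa using ge_of_tendsto' this h2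

end Pool.Agent.H.MP_73c876_an
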